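import Pool.Agent.W544.FF.Defs3
import Pool.Agent.W320.PG.G2P

/-! Project FF part 3, part (G2S): block-symmetric version of (G2P). -/

set_option autoImplicit false

open Matrix Finset Module

namespace Pool.Agent.W736.FF

open Pool.Agent.W544.PG Pool.Agent.W544.FF Pool.Agent.W410.PG.G2 Pool.Agent.W320.PG

noncomputable section

variable {n r k b : ℕ}

/-! ### blocks -/

lemma blocks (f : Fin k → Fin b) (a : Fin k → Fin r) (hfa : ∀ j j', f j = f j' → a j = a j') :
    ∃ (k' : ℕ) (g : Fin k → Fin k') (a' : Fin k' → Fin r), (∀ j j', g j = g j' ↔ f j = f j') ∧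
      (∀ j, a' (g j) = a j) ∧ ∀ i, ns a' i ≤ nb f a i := by
  classical
  set S : Finset (Fin b) := univ.image f with hS
  let e : S ≃ Fin S.card := S.equivFin
  have hsec : ∀ y : S, ∃ j, f j = y.1 := by
    intro y
    obtain ⟨j, -, hj⟩ := mem_image.1 y.2
    exact ⟨j, hj⟩
  choose t ht using hsec
  refine ⟨S.card, fun j => e ⟨f j, mem_image_of_mem f (mem_univ j)⟩, fun x => a (t (e.symm x)),
    ?_, ?_, ?_⟩
  · intro j j'
    rw [e.apply_eq_iff_eq, Subtype.mk.injEq]
  · intro j
    simp only [Equiv.symm_apply_apply]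
    exact hfa _ _ (ht _)
  · intro i
    unfold ns nb
    apply card_le_card_of_injOn (fun x => (e.symm x).1)
    · intro x hx
      simp only [coe_filter, mem_univ, true_and] at hx ⊢
      exact ⟨t (e.symm x), ht _, hx⟩
    · intro x _ y _ hxy
      exact e.symm.injective (Subtype.ext hxy)

/-! ### the symmetry of the kernel -/

lemma proj_sym (f : Fin k → Fin b) (M : Submodule ℂ ((Fin k → Fin n) → ℂ))
    (P : ((Fin k → Fin n) → ℂ) →ₗ[ℂ] ((Fin k → Fin n) → ℂ)) (h1 : ∀ s, P s ∈ M)
    (h3 : ∀ m ∈ M, ∀ s, ip m (s - P s) = 0) (hSym : ∀ s ∈ M, SymF f s)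
    (π : Equiv.Perm (Fin k)) (hπ : ∀ j, f (π j) = f j) (s : (Fin k → Fin n) → ℂ) :
    P (fun J => s (fun j => J (π j))) = P s := by
  set s' : (Fin k → Fin n) → ℂ := fun J => s (fun j => J (π j)) with hs'
  have hip : ∀ m ∈ M, ip m s' = ip m s := by
    intro m hm
    unfold ip
    have h4 := Equiv.sum_comp (Equiv.arrowCongr π.symm (Equiv.refl (Fin n)))
      (fun J => (starRingEnd ℂ) (m J) * s J)
    rw [← h4]
    apply sum_congr rfl
    intro J _
    have h5 : (Equiv.arrowCongr π.symm (Equiv.refl (Fin n))) J = fun j => J (π j) := rfl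
    rw [h5, hSym m hm π hπ J]
  set d := P (s' - s) with hd
  have hdM : d ∈ M := h1 _
  have h6 : ip d (s' - s) = 0 := by
    have h7 := ip_add d s (s' - s)
    rw [add_sub_cancel, hip d hdM] at h7
    have h8 : ip d s + ip d (s' - s) = ip d s + 0 := by rw [← h7, add_zero]
    exact add_left_cancel h8
  have h9 := ip_add d ((s' - s) - P (s' - s)) (P (s' - s))
  rw [sub_add_cancel, h6, h3 d hdM, zero_add, ← hd] at h9
  have h10 := ip_self d h9.symm
  rw [hd, map_sub] at h10
  exact sub_eq_zero.1 h10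

/-- the blocks of the kernel -/
def FFb (f : Fin k → Fin b) : Fin (k + k) → Fin (b + b) :=
  Fin.append (fun j => Fin.castAdd b (f j)) (fun j => Fin.natAdd b (f j))

lemma FFb_left (f : Fin k → Fin b) (j : Fin k) : FFb f (Fin.castAdd k j) = Fin.castAdd b (f j) := by
  unfold FFb; rw [Fin.append_left]

lemma FFb_right (f : Fin k → Fin b) (j : Fin k) : FFb f (Fin.natAdd k j) = Fin.natAdd b (f j) := by
  unfold FFb; rw [Fin.append_right]

lemma cast_ne_nat (x y : Fin b) : Fin.castAdd b x ≠ Fin.natAdd b y := by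
  intro h
  have := congrArg Fin.val h
  simp at this
  omega

lemma FFb_cast {f : Fin k → Fin b} {j : Fin (k + k)} {x : Fin b} (h : FFb f j = Fin.castAdd b x) :
    ∃ t : Fin k, j = Fin.castAdd k t ∧ f t = x := by
  revert h
  refine Fin.addCases (fun i => ?_) (fun i => ?_) j
  · intro h
    rw [FFb_left] at h
    exact ⟨i, rfl, Fin.castAdd_injective _ _ h⟩
  · intro h
    rw [FFb_right] at h
    exact absurd h.symm (cast_ne_nat _ _)

lemma FFb_nat {f : Fin k → Fin b} {j : Fin (k + k)} {x : Fin b} (h : FFb f j = Fin.natAdd b x) :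
    ∃ t : Fin k, j = Fin.natAdd k t ∧ f t = x := by
  revert h
  refine Fin.addCases (fun i => ?_) (fun i => ?_) j
  · intro h
    rw [FFb_left] at h
    exact absurd h (cast_ne_nat _ _)
  · intro h
    rw [FFb_right] at h
    exact ⟨i, rfl, Fin.natAdd_injective _ _ h⟩

lemma kr_sym (f : Fin k → Fin b) (M : Submodule ℂ ((Fin k → Fin n) → ℂ))
    (P : ((Fin k → Fin n) → ℂ) →ₗ[ℂ] ((Fin k → Fin n) → ℂ)) (h1 : ∀ s, P s ∈ M)
    (h3 : ∀ m ∈ M, ∀ s, ip m (s - P s) = 0) (hSym : ∀ s ∈ M, SymF f s) :
    SymF (FFb f) (kr P) := by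
  intro π hπ L
  have hA : ∀ i : Fin k, ∃ t : Fin k, π (Fin.castAdd k i) = Fin.castAdd k t ∧ f t = f i := by
    intro i
    exact FFb_cast (by rw [hπ, FFb_left])
  have hB : ∀ i : Fin k, ∃ t : Fin k, π (Fin.natAdd k i) = Fin.natAdd k t ∧ f t = f i := by
    intro i
    exact FFb_nat (by rw [hπ, FFb_right])
  choose t1 ht1 hf1 using hA
  choose t2 ht2 hf2 using hB
  have hi1 : Function.Injective t1 := by
    intro i i' h
    have h2 : π (Fin.castAdd k i) = π (Fin.castAdd k i') := by rw [ht1, ht1, h]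
    exact Fin.castAdd_injective _ _ (π.injective h2)
  have hi2 : Function.Injective t2 := by
    intro i i' h
    have h2 : π (Fin.natAdd k i) = π (Fin.natAdd k i') := by rw [ht2, ht2, h]
    exact Fin.natAdd_injective _ _ (π.injective h2)
  let π1 : Equiv.Perm (Fin k) := Equiv.ofBijective t1 (Finite.injective_iff_bijective.1 hi1)
  let π2 : Equiv.Perm (Fin k) := Equiv.ofBijective t2 (Finite.injective_iff_bijective.1 hi2)
  have hπ1 : ∀ j, f (π1.symm j) = f j := by
    intro j
    have h := hf1 (π1.symm j)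
    have h' : t1 (π1.symm j) = j := π1.apply_symm_apply j
    rw [h'] at h
    exact h.symm
  have hπ2 : ∀ j, f (π2 j) = f j := hf2
  unfold kr
  have e1 : (fun i => L (π (Fin.castAdd k i))) = fun i => L (Fin.castAdd k (t1 i)) := by
    funext i; rw [ht1]
  have e2 : (fun i => L (π (Fin.natAdd k i))) = fun i => L (Fin.natAdd k (t2 i)) := by
    funext i; rw [ht2]
  rw [e1, e2]
  have e3 : (Pi.single (fun i => L (Fin.castAdd k (t1 i))) (1 : ℂ) : (Fin k → Fin n) → ℂ) =
      fun J => (Pi.single (fun i => L (Fin.castAdd k i)) (1 : ℂ) : (Fin k → Fin n) → ℂ)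
        (fun j => J (π1.symm j)) := by
    funext J
    rw [Pi.single_apply, Pi.single_apply]
    have : J = (fun i => L (Fin.castAdd k (t1 i))) ↔
        (fun j => J (π1.symm j)) = fun i => L (Fin.castAdd k i) := by
      constructor
      · intro h
        funext j
        rw [h]
        have h' : t1 (π1.symm j) = j := π1.apply_symm_apply j
        simp only [h']
      · intro h
        funext i
        have h2 := congrFun h (t1 i)
        have h' : π1.symm (t1 i) = i := π1.symm_apply_apply i
        simp only [h'] at h2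
        exact h2
    by_cases hJ : J = (fun i => L (Fin.castAdd k (t1 i)))
    · rw [if_pos hJ, if_pos (this.1 hJ)]
    · rw [if_neg hJ, if_neg (fun h => hJ (this.2 h))]
  rw [e3, proj_sym f M P h1 h3 hSym π1.symm hπ1]
  exact hSym _ (h1 _) π2 hπ2 (fun i => L (Fin.natAdd k i))

lemma nb_append (f : Fin k → Fin b) (a : Fin k → Fin r) (i : Fin r) :
    nb (FFb f) (Fin.append a a) i = 2 * nb f a i := by
  classical
  unfold nb
  rw [card_filter, Fin.sum_univ_add, card_filter]
  have e1 : ∀ x : Fin b, (∃ j, FFb f j = Fin.castAdd b x ∧ Fin.append a a j = i) ↔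
      ∃ j, f j = x ∧ a j = i := by
    intro x
    constructor
    · rintro ⟨j, h1, h2⟩
      obtain ⟨t, rfl, h3⟩ := FFb_cast h1
      rw [Fin.append_left] at h2
      exact ⟨t, h3, h2⟩
    · rintro ⟨j, h1, h2⟩
      exact ⟨Fin.castAdd k j, by rw [FFb_left, h1], by rw [Fin.append_left, h2]⟩
  have e2 : ∀ x : Fin b, (∃ j, FFb f j = Fin.natAdd b x ∧ Fin.append a a j = i) ↔
      ∃ j, f j = x ∧ a j = i := by
    intro x
    constructor
    · rintro ⟨j, h1, h2⟩
      obtain ⟨t, rfl, h3⟩ := FFb_nat h1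
      rw [Fin.append_right] at h2
      exact ⟨t, h3, h2⟩
    · rintro ⟨j, h1, h2⟩
      exact ⟨Fin.natAdd k j, by rw [FFb_right, h1], by rw [Fin.append_right, h2]⟩
  simp only [e1, e2]
  ring

/-! ### the kernel -/

lemma genO_mem {m : ℕ} (c : Fin n → Fin r) (σ : Fin m → Fin m) (f' : Fin m → Fin r)
    (hσ : Mat m σ) : genO ℂ c σ f' ∈ Submodule.span ℂ
      (Pool.Agent.W417.K3.Fft2.Gens (n := n) (k := m) c (fun _ => (1 : ℂ)) univ) := by
  by_cases hf : ∀ j, f' (σ j) = f' j
  · apply Submodule.subset_span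
    refine ⟨σ, f', hσ.1, fun j _ => hσ.2 j, fun j hj => absurd (mem_univ j) hj, ?_⟩
    intro I
    unfold genO
    by_cases hI : ∀ j, c (I j) = f' j
    · rw [if_pos hI, one_mul]
      apply prod_congr rfl
      intro j _
      unfold Pool.Agent.W417.K3.Fft2.DB
      by_cases h : I j = I (σ j)
      · rw [if_pos h, if_pos ⟨h, hI j⟩]
      · rw [if_neg h, if_neg (fun h' => h h'.1)]
    · rw [if_neg hI, zero_mul]
      symm
      push Not at hI
      obtain ⟨j, hj⟩ := hI
      have hσne : σ j ≠ j := hσ.2 j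
      rcases lt_or_gt_of_ne hσne with hlt | hlt
      · apply prod_eq_zero (i := σ j)
        · rw [mem_filter, hσ.1]
          exact ⟨mem_univ _, hlt⟩
        · unfold Pool.Agent.W417.K3.Fft2.DB
          rw [if_neg]
          rintro ⟨h1, h2⟩
          apply hj
          rw [hσ.1] at h1
          rw [← h1, h2, hf]
      · apply prod_eq_zero (i := j)
        · rw [mem_filter]
          exact ⟨mem_univ _, hlt⟩
        · unfold Pool.Agent.W417.K3.Fft2.DB
          rw [if_neg]
          rintro ⟨-, h2⟩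
          exact hj h2
  · have h0 : genO ℂ c σ f' = 0 := by
      funext J
      unfold genO
      push Not at hf
      obtain ⟨j, hj⟩ := hf
      rw [Pi.zero_apply]
      by_cases hI : ∀ j, c (J j) = f' j
      · have hσne : σ j ≠ j := hσ.2 j
        have hJne : J j ≠ J (σ j) := by
          intro h
          apply hj
          rw [← hI, ← hI, h]
        rw [mul_eq_zero]
        right
        rcases lt_or_gt_of_ne hσne with hlt | hlt
        · apply prod_eq_zero (i := σ j)
          · rw [mem_filter, hσ.1]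
            exact ⟨mem_univ _, hlt⟩
          · rw [hσ.1, if_neg hJne.symm]
        · apply prod_eq_zero (i := j)
          · rw [mem_filter]
            exact ⟨mem_univ _, hlt⟩
          · rw [if_neg hJne]
      · rw [if_neg hI, zero_mul]
    rw [h0]
    exact Submodule.zero_mem _

/-! ### the coefficients -/

lemma coef_zeroF {k' : ℕ} (g : Fin k → Fin k') (ξ η : Fin k' → Fin n → ℂ)
    (hη : ∀ i j, ∑ x, η i x * ξ j x = if i = j then 1 else 0) (C : Equiv.Perm (Fin k) → ℂ)
    (h : ∀ K : Fin k → Fin n, ∑ τ : Equiv.Perm (Fin k),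
      C τ * dec (fun j => ξ (g j)) (fun i => K (τ i)) = 0)
    (w : Fin k → Fin k') :
    ∑ τ : Equiv.Perm (Fin k), (if (fun i => g (τ⁻¹ i)) = w then C τ else 0) = 0 := by
  have h1 : ∑ K : Fin k → Fin n, (∏ i, η (w i) (K i)) *
      ∑ τ : Equiv.Perm (Fin k), C τ * dec (fun j => ξ (g j)) (fun i => K (τ i)) = 0 := by
    apply sum_eq_zero
    intro K _
    rw [h K, mul_zero]
  have h2 : ∀ τ : Equiv.Perm (Fin k), ∑ K : Fin k → Fin n, (∏ i, η (w i) (K i)) *
      (C τ * dec (fun j => ξ (g j)) (fun i => K (τ i))) =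
        if (fun i => g (τ⁻¹ i)) = w then C τ else 0 := by
    intro τ
    have h3 : ∀ K : Fin k → Fin n, (∏ i, η (w i) (K i)) *
        (C τ * dec (fun j => ξ (g j)) (fun i => K (τ i))) =
        C τ * ∏ i, (η (w i) (K i) * ξ (g (τ⁻¹ i)) (K i)) := by
      intro K
      rw [prod_mul_distrib]
      have h4 : dec (fun j => ξ (g j)) (fun i => K (τ i)) = ∏ i, ξ (g (τ⁻¹ i)) (K i) := by
        unfold dec
        rw [← Equiv.prod_comp τ (fun i => ξ (g (τ⁻¹ i)) (K i))]
        apply prod_congr rfl
        intro i _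
        simp
      rw [h4]
      ring
    rw [sum_congr rfl (fun K _ => h3 K), ← mul_sum]
    have h5 : ∑ K : Fin k → Fin n, ∏ i, (η (w i) (K i) * ξ (g (τ⁻¹ i)) (K i)) =
        ∏ i, ∑ x, η (w i) x * ξ (g (τ⁻¹ i)) x := by
      rw [Finset.prod_univ_sum]
      simp
    rw [h5]
    split_ifs with hτ
    · rw [prod_eq_one, mul_one]
      intro i _
      rw [hη, if_pos (congrFun hτ i).symm]
    · obtain ⟨i, hi⟩ : ∃ i, w i ≠ g (τ⁻¹ i) := by
        by_contra hcon
        push Not at hcon
        exact hτ (funext fun i => (hcon i).symm)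
      rw [prod_eq_zero (mem_univ i), mul_zero]
      rw [hη, if_neg hi]
  simp only [mul_sum] at h1
  rw [sum_comm, sum_congr rfl (fun τ _ => h2 τ)] at h1
  exact h1

/-- the result -/
theorem g2s (hkgs : S_kgs) : S_g2s := by
  intro n r k b c a f p X hX hX3 hB htr hfa hn M hS hSym hM hT hne
  rcases Nat.eq_zero_or_pos k with hk | hk
  · subst hk
    obtain ⟨s, hs, hs0⟩ := (Submodule.ne_bot_iff M).1 hne
    refine ⟨s, hs, hs0, ?_⟩
    funext J
    unfold act
    simp
  have hnsj : ∀ j, nb f a (a j) ≠ 0 := by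
    intro j h
    unfold nb at h
    rw [card_eq_zero] at h
    have : f j ∈ (univ.filter fun x : Fin b => ∃ j', f j' = x ∧ a j' = a j) :=
      mem_filter.2 ⟨mem_univ _, j, rfl, rfl⟩
    rw [h] at this
    exact absurd this (notMem_empty _)
  have hn0 : n ≠ 0 := by
    intro h
    rcases hn (a ⟨0, hk⟩) with h1 | h1
    · have h2 : (univ.filter fun b => c b = a ⟨0, hk⟩).card ≤ n := by
        refine (card_le_univ _).trans ?_
        rw [Fintype.card_fin]
      omega
    · exact hnsj _ h1
  obtain ⟨k', g, a', hg1, hg2, hg3⟩ := blocks f a hfa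
  obtain ⟨ξ, hξ, hξX, hξs⟩ := exists_xiC X hX hX3 c hB a' p htr (fun i => by
    rcases hn i with h | h
    · exact (hg3 i).trans h.1
    · exact (hg3 i).trans (by omega))
  obtain ⟨η, hη⟩ := exists_dual ξ hξ
  obtain ⟨P, hP1, hP2, hP3⟩ := exists_proj M
  have hcomm := proj_commC c M P hP1 hP3 hM
  have hLspan : kr P ∈ Submodule.span ℂ
      {g : (Fin (k + k) → Fin n) → ℂ | ∃ σ f', Mat (k + k) σ ∧ g = genO ℂ c σ f'} := by
    apply hkgs n r (k + k) (b + b) c (Fin.append a a) (FFb f)
    · intro j j' h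
      revert h
      refine Fin.addCases (fun i => ?_) (fun i => ?_) j <;>
        refine Fin.addCases (fun i' => ?_) (fun i' => ?_) j'
      · intro h
        rw [FFb_left, FFb_left] at h
        rw [Fin.append_left, Fin.append_left]
        exact hfa _ _ (Fin.castAdd_injective _ _ h)
      · intro h
        rw [FFb_left, FFb_right] at h
        exact absurd h (cast_ne_nat _ _)
      · intro h
        rw [FFb_left, FFb_right] at h
        exact absurd h.symm (cast_ne_nat _ _)
      · intro h
        rw [FFb_right, FFb_right] at h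
        rw [Fin.append_right, Fin.append_right]
        exact hfa _ _ (Fin.natAdd_injective _ _ h)
    · intro i
      rw [nb_append]
      rcases hn i with h | h
      · exact Or.inr h.2
      · exact Or.inl (by omega)
    · intro Z hZ hBZ
      funext L
      exact kr_invC P Z hZ (fun s => hcomm Z hZ hBZ s) L
    · intro L hL j
      exact kr_supp c a M P hP1 hP3 hS L hL j
    · exact kr_sym f M P hP1 hP3 hSym
  have hLspan2 : kr P ∈ Submodule.span ℂ
      (Pool.Agent.W417.K3.Fft2.Gens (n := n) (k := k + k) c (fun _ => (1 : ℂ)) univ) := by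
    refine (Submodule.span_le.2 ?_) hLspan
    rintro _ ⟨σ, f', hσ, rfl⟩
    exact genO_mem c σ f' hσ
  obtain ⟨C, hc⟩ := good_spanC hn0 c a (kr P) hLspan2
  have hPc : ∀ s, Trl s → Supp c a s → ∀ K,
      P s K = ∑ τ : Equiv.Perm (Fin k), C τ * s (fun i => K (τ i)) := by
    intro s hs hs2 K
    rw [P_apply, hc s hs hs2 K]
  have hd := act_dec X hX (fun j => ξ (g j)) (fun j => hξX (g j))
  have hdt := dec_trl X hX (fun j => ξ (g j)) (fun j => hξX (g j))
  have hds : Supp c a (dec fun j => ξ (g j)) := by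
    intro J hJ j
    by_contra h
    apply hJ
    unfold dec
    exact prod_eq_zero (mem_univ j) (hξs (g j) (J j) (by rw [hg2]; exact h))
  refine ⟨P (dec fun j => ξ (g j)), hP1 _, ?_, ?_⟩
  · intro h0
    have hc0 := coef_zeroF g ξ η hη C (by
      intro K
      rw [← hPc _ hdt hds K, h0]
      rfl)
    apply hne
    rw [Submodule.eq_bot_iff]
    intro m hm
    rw [← hP2 m hm]
    funext K
    rw [hPc m (hT m hm) (hS m hm) K, Pi.zero_apply]
    -- splitting along the words
    have hfib : ∑ τ : Equiv.Perm (Fin k), C τ * m (fun i => K (τ i)) =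
        ∑ w : Fin k → Fin k', ∑ τ : Equiv.Perm (Fin k),
          (if (fun i => g (τ⁻¹ i)) = w then C τ * m (fun i => K (τ i)) else 0) := by
      rw [sum_comm]
      apply sum_congr rfl
      intro τ _
      rw [sum_ite_eq]
      simp
    rw [hfib]
    apply sum_eq_zero
    intro w _
    by_cases hw : ∃ τ0 : Equiv.Perm (Fin k), (fun i => g (τ0⁻¹ i)) = w
    · obtain ⟨τ0, hτ0⟩ := hw
      have h5 : ∀ τ : Equiv.Perm (Fin k),
          (if (fun i => g (τ⁻¹ i)) = w then C τ * m (fun i => K (τ i)) else 0) =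
          (if (fun i => g (τ⁻¹ i)) = w then C τ else 0) * m (fun i => K (τ0 i)) := by
        intro τ
        by_cases hτ : (fun i => g (τ⁻¹ i)) = w
        · rw [if_pos hτ, if_pos hτ]
          congr 1
          have h6 := hSym m hm (τ0⁻¹ * τ) (by
            intro j
            rw [← hg1]
            have h7 := congrFun (hτ0.trans hτ.symm) (τ j)
            have h8 : τ⁻¹ (τ j) = j := Equiv.symm_apply_apply τ j
            beta_reduce at h7
            rw [h8] at h7
            rw [Equiv.Perm.mul_apply]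
            exact h7) (fun i => K (τ0 i))
          rw [← h6]
          congr 1
          funext j
          simp
        · rw [if_neg hτ, if_neg hτ, zero_mul]
      rw [sum_congr rfl (fun τ _ => h5 τ), ← sum_mul, hc0 w, zero_mul]
    · apply sum_eq_zero
      intro τ _
      rw [if_neg (fun h => hw ⟨τ, h⟩)]
  · rw [← hcomm X hX hB, hd, map_smul]

end

end Pool.Agent.W736.FF
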